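import Pool.Agent.Lib.MP_1dc5fb_an.HalfPlane
import Pool.Agent.Lib.MP_1dc5fb_an.Robin

section

/-!
A comparison principle for bounded below functions on the half plane.
-/

set_option autoImplicit false

open MeasureTheory Set Filter Topology

namespace Pool.Agent.Lib.MP_1dc5fb

lemma hasDerivAt_pos_pow (k : ℕ) (t : ℝ) :
    HasDerivAt (fun t : ℝ => (max t 0) ^ (k + 2)) ((k + 2) * (max t 0) ^ (k + 1)) t := by
  rcases lt_trichotomy t 0 with h | h | h
  · have e : (fun t : ℝ => (max t 0) ^ (k + 2)) =ᶠ[𝓝 t] fun _ => 0 := by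
      filter_upwards [Iio_mem_nhds h] with s hs
      rw [max_eq_right (le_of_lt hs)]
      simp
    rw [max_eq_right h.le]
    simp only [ne_eq, Nat.add_eq_zero_iff, one_ne_zero, and_false, not_false_eq_true, zero_pow,
      mul_zero]
    exact (hasDerivAt_const t (0 : ℝ)).congr_of_eventuallyEq e
  · subst h
    rw [max_self, zero_pow (by omega), mul_zero]
    rw [hasDerivAt_iff_isLittleO_nhds_zero]
    simp only [zero_add, max_self, smul_zero, sub_zero]
    rw [zero_pow (by omega : k + 2 ≠ 0)]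
    simp only [sub_zero]
    have h1 : (fun h : ℝ => h ^ (k + 2)) =o[𝓝 0] (fun h : ℝ => h) := by
      have := Asymptotics.isLittleO_pow_id (𝕜 := ℝ) (n := k + 2) (by omega)
      exact this
    refine Asymptotics.IsBigO.trans_isLittleO ?_ h1
    refine Asymptotics.isBigO_of_le _ fun h => ?_
    rw [norm_pow, norm_pow]
    refine pow_le_pow_left₀ (norm_nonneg _) ?_ _
    rw [Real.norm_eq_abs, Real.norm_eq_abs, abs_of_nonneg (le_max_right _ _)]
    exact max_le (le_abs_self _) (abs_nonneg _)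
  · have e : (fun t : ℝ => (max t 0) ^ (k + 2)) =ᶠ[𝓝 t] fun t => t ^ (k + 2) := by
      filter_upwards [Ioi_mem_nhds h] with s hs
      rw [max_eq_left (le_of_lt hs)]
    rw [max_eq_left h.le]
    have := (hasDerivAt_pow (k + 2) t).congr_of_eventuallyEq e
    simpa using this

lemma hasDerivAt_neg_part_sq (t : ℝ) :
    HasDerivAt (fun t : ℝ => (max (-t) 0) ^ 2) (-2 * max (-t) 0) t := by
  have h1 := (hasDerivAt_pos_pow 0 (-t)).comp t (hasDerivAt_neg t)
  refine (h1.congr_deriv ?_)
  simp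

/-- quadratic function used in cut-offs -/
noncomputable def qq (R : ℝ) (z : ℝ × ℝ) : ℝ := 1 - (z.1 ^ 2 + z.2 ^ 2) / R ^ 2

lemma c1_qq (R : ℝ) : C1bar (qq R) (fun z => -(2 * z.1 / R ^ 2)) (fun z => -(2 * z.2 / R ^ 2)) where
  cont := by unfold qq; fun_prop
  contx := by fun_prop
  conty := by fun_prop
  deriv := fun z _ => by
    unfold qq
    have h1 : HasFDerivAt (fun z : ℝ × ℝ => z.1 ^ 2 + z.2 ^ 2)
        ((2 * z.1) • ContinuousLinearMap.fst ℝ ℝ ℝ + (2 * z.2) • ContinuousLinearMap.snd ℝ ℝ ℝ) z := by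
      have a := (hasFDerivAt_fst (𝕜 := ℝ) (p := z)).pow 2
      have b := (hasFDerivAt_snd (𝕜 := ℝ) (p := z)).pow 2
      refine ((a.add b).congr_fderiv ?_).congr_of_eventuallyEq
        (Eventually.of_forall fun _ => rfl)
      simp
    have h2 := (h1.mul_const ((R ^ 2)⁻¹)).const_sub 1
    refine (h2.congr_fderiv ?_).congr_of_eventuallyEq ?_
    · ext <;> simp [lin] <;> ring
    · exact Eventually.of_forall fun z => by simp only [div_eq_mul_inv]

/-- the test function of the comparison argument -/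
lemma test_comp {w wx wy : ℝ × ℝ → ℝ} (hw : C1bar w wx wy) {R : ℝ} (hR : 0 < R) :
    Test (fun z => (max (-(w z)) 0) ^ 2 * (max (qq R z) 0) ^ 4)
      (fun z => (-2 * max (-(w z)) 0) * wx z * (max (qq R z) 0) ^ 4 +
        (max (-(w z)) 0) ^ 2 * (4 * (max (qq R z) 0) ^ 3 * (-(2 * z.1 / R ^ 2))))
      (fun z => (-2 * max (-(w z)) 0) * wy z * (max (qq R z) 0) ^ 4 +
        (max (-(w z)) 0) ^ 2 * (4 * (max (qq R z) 0) ^ 3 * (-(2 * z.2 / R ^ 2)))) := by
  have a := hw.comp (g := fun t => (max (-t) 0) ^ 2) (g' := fun t => -2 * max (-t) 0)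
    hasDerivAt_neg_part_sq (by fun_prop)
  have b := (c1_qq R).comp (g := fun t => (max t 0) ^ 4) (g' := fun t => 4 * (max t 0) ^ 3)
    (fun t => by
      have := hasDerivAt_pos_pow 2 t
      refine this.congr_deriv ?_
      norm_num) (by fun_prop)
  refine ⟨(a.mul b), R, fun z hz h => ?_⟩
  have hq : qq R z ≤ 0 := by
    unfold qq
    have hR2 : 0 < R ^ 2 := by positivity
    have : R ^ 2 ≤ z.1 ^ 2 + z.2 ^ 2 := by
      rcases h with h | h
      · have h1 : R ^ 2 ≤ |z.1| ^ 2 := pow_le_pow_left₀ hR.le h 2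
        rw [sq_abs] at h1
        nlinarith [sq_nonneg z.2]
      · have h1 : R ^ 2 ≤ z.2 ^ 2 := pow_le_pow_left₀ hR.le h 2
        nlinarith [sq_nonneg z.1]
    have : 1 ≤ (z.1 ^ 2 + z.2 ^ 2) / R ^ 2 := (one_le_div hR2).2 this
    linarith
  rw [max_eq_right hq]
  simp

lemma cc_cut {u : ℝ × ℝ → ℝ} (hu : ContinuousOn u Hbar) {R : ℝ} (hR : 0 < R) (k : ℕ) :
    CC (fun z => u z * (max (qq R z) 0) ^ (k + 1)) := by
  refine CC.mul_left hu ⟨?_, R, fun z hz h => ?_⟩
  · unfold qq; fun_prop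
  · have hq : qq R z ≤ 0 := by
      unfold qq
      have hR2 : 0 < R ^ 2 := by positivity
      have : R ^ 2 ≤ z.1 ^ 2 + z.2 ^ 2 := by
        rcases h with h | h
        · have h1 : R ^ 2 ≤ |z.1| ^ 2 := pow_le_pow_left₀ hR.le h 2
          rw [sq_abs] at h1
          nlinarith [sq_nonneg z.2]
        · have h1 : R ^ 2 ≤ z.2 ^ 2 := pow_le_pow_left₀ hR.le h 2
          nlinarith [sq_nonneg z.1]
      have : 1 ≤ (z.1 ^ 2 + z.2 ^ 2) / R ^ 2 := (one_le_div hR2).2 this
      linarith
    rw [max_eq_right hq]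
    simp

/-- **Comparison principle.** -/
theorem comparison {β : ℝ → ℝ} (hβ0 : ∀ x, 0 ≤ β x) {m : ℝ} (hm : 0 < m)
    {w wx wy : ℝ × ℝ → ℝ} (hw : C1bar w wx wy) {M : ℝ} (hM : ∀ z ∈ Hbar, -M ≤ w z)
    (H : ∀ ψ ψx ψy : ℝ × ℝ → ℝ, Test ψ ψx ψy → (∀ z ∈ Hbar, 0 ≤ ψ z) →
      (∀ z ∈ Hbar, 0 ≤ w z → ψ z = 0) →
      0 ≤ (∫ z in Hset, (wx z * ψx z + wy z * ψy z)) + m * (∫ z in Hset, w z * ψ z) +
        ∫ x, β x * w (x, 0) * ψ (x, 0)) :
    ∀ z ∈ Hbar, 0 ≤ w z := by
  have hM0 : 0 ≤ max M 0 := le_max_right _ _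
  set n : ℝ × ℝ → ℝ := fun z => max (-(w z)) 0 with hn
  have hn0 : ∀ z, 0 ≤ n z := fun z => le_max_right _ _
  have hnM : ∀ z ∈ Hbar, n z ≤ max M 0 := by
    intro z hz
    exact max_le_max (by linarith [hM z hz]) le_rfl
  have hnc : ContinuousOn n Hbar := by
    have := hw.cont
    exact ContinuousOn.sup this.neg continuousOn_const
  have hn3 : ContinuousOn (fun z => n z ^ 3) Hbar := hnc.pow 3
  -- the basic energy inequality
  have energy : ∀ R : ℝ, 0 < R → m * (∫ z in Hset, n z ^ 3 * (max (qq R z) 0) ^ 4) ≤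
      8 / R ^ 2 * ∫ z in Hset, n z ^ 3 * (max (qq R z) 0) ^ 2 := by
    intro R hR
    have ht := test_comp hw hR
    have h1 := H _ _ _ ht (fun z _ => by positivity) (fun z _ hz => by
      rw [max_eq_right (by linarith : -(w z) ≤ 0)]; simp)
    obtain ⟨k0, k1, k2⟩ := ht.cc
    have i1 := ((k1.mul_left hw.contx).add (k2.mul_left hw.conty)).integrableOn
    have i2 : IntegrableOn (fun z => 8 / R ^ 2 * (n z ^ 3 * (max (qq R z) 0) ^ 2)) Hset :=
      ((cc_cut hn3 hR 1).integrableOn).const_mul _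
    have b1 : (∫ z in Hset, (wx z * ((-2 * max (-(w z)) 0) * wx z * (max (qq R z) 0) ^ 4 +
        (max (-(w z)) 0) ^ 2 * (4 * (max (qq R z) 0) ^ 3 * (-(2 * z.1 / R ^ 2)))) +
        wy z * ((-2 * max (-(w z)) 0) * wy z * (max (qq R z) 0) ^ 4 +
        (max (-(w z)) 0) ^ 2 * (4 * (max (qq R z) 0) ^ 3 * (-(2 * z.2 / R ^ 2)))))) ≤
        ∫ z in Hset, 8 / R ^ 2 * (n z ^ 3 * (max (qq R z) 0) ^ 2) := by
      refine setIntegral_mono_on i1 i2 measurableSet_Hset fun z hz => ?_
      change wx z * ((-2 * n z) * wx z * (max (qq R z) 0) ^ 4 +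
        (n z) ^ 2 * (4 * (max (qq R z) 0) ^ 3 * (-(2 * z.1 / R ^ 2)))) +
        wy z * ((-2 * n z) * wy z * (max (qq R z) 0) ^ 4 +
        (n z) ^ 2 * (4 * (max (qq R z) 0) ^ 3 * (-(2 * z.2 / R ^ 2)))) ≤ _
      have hnz := hn0 z
      by_cases hq : qq R z ≤ 0
      · rw [max_eq_right hq]; simp
      · push Not at hq
        rw [max_eq_left hq.le]
        set P := qq R z with hP
        set s := n z
        have hR2 : 0 < R ^ 2 := by positivity
        have hz2 : z.1 ^ 2 + z.2 ^ 2 ≤ R ^ 2 := by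
          have : (z.1 ^ 2 + z.2 ^ 2) / R ^ 2 ≤ 1 := by
            have : P = 1 - (z.1 ^ 2 + z.2 ^ 2) / R ^ 2 := rfl
            linarith
          rwa [div_le_one hR2] at this
        have hqx : (2 * z.1 / R ^ 2) ^ 2 + (2 * z.2 / R ^ 2) ^ 2 ≤ 4 / R ^ 2 := by
          rw [div_pow, div_pow, ← add_div, div_le_div_iff₀ (by positivity) hR2]
          nlinarith
        set a := 2 * z.1 / R ^ 2
        set c := 2 * z.2 / R ^ 2
        have e1 : 0 ≤ 2 * s * P ^ 2 * (P * wx z + s * a) ^ 2 := by positivity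
        have e2 : 0 ≤ 2 * s * P ^ 2 * (P * wy z + s * c) ^ 2 := by positivity
        have e3 : 2 * s ^ 3 * P ^ 2 * (a ^ 2 + c ^ 2) ≤ 2 * s ^ 3 * P ^ 2 * (4 / R ^ 2) :=
          mul_le_mul_of_nonneg_left hqx (by positivity)
        have e4 : 8 / R ^ 2 * (s ^ 3 * P ^ 2) = 2 * s ^ 3 * P ^ 2 * (4 / R ^ 2) := by ring
        rw [e4]
        nlinarith [e1, e2, e3]
    rw [integral_const_mul] at b1
    have b2 : (∫ z in Hset, w z * ((max (-(w z)) 0) ^ 2 * (max (qq R z) 0) ^ 4)) =
        -∫ z in Hset, n z ^ 3 * (max (qq R z) 0) ^ 4 := by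
      rw [← integral_neg]
      refine integral_congr_ae (Eventually.of_forall fun z => ?_)
      change w z * ((max (-(w z)) 0) ^ 2 * (max (qq R z) 0) ^ 4) =
        -((max (-(w z)) 0) ^ 3 * (max (qq R z) 0) ^ 4)
      rcases le_total 0 (w z) with h | h
      · rw [max_eq_right (by linarith : -(w z) ≤ 0)]; simp
      · rw [max_eq_left (by linarith : 0 ≤ -(w z))]; ring
    have b3 : (∫ x, β x * w (x, 0) * ((max (-(w (x, 0))) 0) ^ 2 * (max (qq R (x, 0)) 0) ^ 4)) ≤ 0 := by
      refine integral_nonpos fun x => ?_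
      change β x * w (x, 0) * ((max (-(w (x, 0))) 0) ^ 2 * (max (qq R (x, 0)) 0) ^ 4) ≤ 0
      rcases le_total 0 (w (x, 0)) with h | h
      · rw [max_eq_right (by linarith : -(w (x, 0)) ≤ 0)]; simp
      · have : 0 ≤ (max (-(w (x, 0))) 0) ^ 2 * (max (qq R (x, 0)) 0) ^ 4 := by positivity
        have h2 : β x * w (x, 0) ≤ 0 := mul_nonpos_of_nonneg_of_nonpos (hβ0 x) h
        exact mul_nonpos_of_nonpos_of_nonneg h2 this
    rw [b2] at h1
    linarith
  -- the cut-off energies
  set a : ℝ → ℝ := fun R => ∫ z in Hset, n z ^ 3 * (max (qq R z) 0) ^ 2 with ha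
  have ha0 : ∀ R, 0 ≤ a R := fun R => integral_nonneg fun z => by
    have := hn0 z; positivity
  have qmono : ∀ (r R : ℝ) (z : ℝ × ℝ), 0 < r → r ≤ R → qq r z ≤ qq R z := by
    intro r R z hr hrR
    unfold qq
    have : (z.1 ^ 2 + z.2 ^ 2) / R ^ 2 ≤ (z.1 ^ 2 + z.2 ^ 2) / r ^ 2 :=
      div_le_div_of_nonneg_left (by positivity) (by positivity) (pow_le_pow_left₀ hr.le hrR 2)
    linarith
  have amono : ∀ r R : ℝ, 0 < r → r ≤ R → a r ≤ a R := by
    intro r R hr hrR
    refine setIntegral_mono_on (cc_cut hn3 hr 1).integrableOn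
      (cc_cut hn3 (lt_of_lt_of_le hr hrR) 1).integrableOn measurableSet_Hset fun z hz => ?_
    have h1 : max (qq r z) 0 ≤ max (qq R z) 0 := max_le_max (qmono r R z hr hrR) le_rfl
    have h2 := hn0 z
    exact mul_le_mul_of_nonneg_left (pow_le_pow_left₀ (le_max_right _ _) h1 2) (by positivity)
  have step : ∀ R : ℝ, 0 < R → a (R / 2) ≤ 26 / (m * R ^ 2) * a R := by
    intro R hR
    have h1 := energy R hR
    have h2 : a (R / 2) ≤ 256 / 81 * ∫ z in Hset, n z ^ 3 * (max (qq R z) 0) ^ 4 := by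
      rw [← integral_const_mul]
      refine setIntegral_mono_on (cc_cut hn3 (by positivity) 1).integrableOn
        (((cc_cut hn3 hR 3).integrableOn).const_mul _) measurableSet_Hset fun z hz => ?_
      have h2 := hn0 z
      have h3 : 0 ≤ n z ^ 3 := by positivity
      by_cases hq : qq (R / 2) z ≤ 0
      · rw [max_eq_right hq]
        have : 0 ≤ 256 / 81 * (n z ^ 3 * (max (qq R z) 0) ^ 4) := by positivity
        simpa using this
      · push Not at hq
        have e1 : qq (R / 2) z = 1 - 4 * ((z.1 ^ 2 + z.2 ^ 2) / R ^ 2) := by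
          unfold qq; field_simp; ring
        have e2 : qq R z = 1 - ((z.1 ^ 2 + z.2 ^ 2) / R ^ 2) := rfl
        have e3 : 0 ≤ (z.1 ^ 2 + z.2 ^ 2) / R ^ 2 := by positivity
        have e4 : 3 / 4 ≤ qq R z := by rw [e2]; linarith
        have e5 : qq (R / 2) z ≤ 1 := by rw [e1]; linarith
        rw [max_eq_left hq.le, max_eq_left (by linarith)]
        have e6 : qq (R / 2) z ^ 2 ≤ 1 := pow_le_one₀ hq.le e5
        have e7 : (3 / 4 : ℝ) ^ 4 ≤ qq R z ^ 4 := pow_le_pow_left₀ (by norm_num) e4 4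
        have e8 : qq (R / 2) z ^ 2 ≤ 256 / 81 * qq R z ^ 4 := by
          have : (3 / 4 : ℝ) ^ 4 = 81 / 256 := by norm_num
          rw [this] at e7
          linarith
        calc n z ^ 3 * qq (R / 2) z ^ 2 ≤ n z ^ 3 * (256 / 81 * qq R z ^ 4) :=
              mul_le_mul_of_nonneg_left e8 h3
          _ = 256 / 81 * (n z ^ 3 * qq R z ^ 4) := by ring
    have h3 : (∫ z in Hset, n z ^ 3 * (max (qq R z) 0) ^ 4) ≤ 8 / (m * R ^ 2) * a R := by
      rw [div_mul_eq_mul_div, le_div_iff₀ (by positivity)]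
      have h4 : m * (∫ z in Hset, n z ^ 3 * (max (qq R z) 0) ^ 4) * R ^ 2 ≤
          8 / R ^ 2 * a R * R ^ 2 := mul_le_mul_of_nonneg_right h1 (by positivity)
      have h5 : 8 / R ^ 2 * a R * R ^ 2 = 8 * a R := by field_simp
      linarith
    have h6 : 0 ≤ a R / (m * R ^ 2) := div_nonneg (ha0 R) (by positivity)
    have h7 : 8 / (m * R ^ 2) * a R = 8 * (a R / (m * R ^ 2)) := by ring
    have h8 : 26 / (m * R ^ 2) * a R = 26 * (a R / (m * R ^ 2)) := by ring
    rw [h7] at h3
    rw [h8]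
    linarith
  -- a crude bound
  have crude : ∀ R : ℝ, 0 < R → a R ≤ 2 * (max M 0) ^ 3 * R ^ 2 := by
    intro R hR
    have hvol : (volume (Icc (-R, (0 : ℝ)) (R, R))).toReal = 2 * R ^ 2 := by
      rw [← Icc_prod_Icc, Measure.volume_eq_prod, Measure.prod_prod, Real.volume_Icc,
        Real.volume_Icc, ENNReal.toReal_mul, ENNReal.toReal_ofReal (by linarith),
        ENNReal.toReal_ofReal (by linarith)]
      ring
    have hfin : volume (Icc (-R, (0 : ℝ)) (R, R)) ≠ ⊤ := isCompact_Icc.measure_lt_top.ne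
    have h1 : a R ≤ ∫ z in Hset, (Icc (-R, (0 : ℝ)) (R, R)).indicator
        (fun _ => (max M 0) ^ 3) z := by
      refine setIntegral_mono_on (cc_cut hn3 hR 1).integrableOn ?_ measurableSet_Hset
        fun z hz => ?_
      · refine Integrable.integrableOn ?_
        rw [integrable_indicator_iff measurableSet_Icc]
        exact integrableOn_const hfin
      · by_cases hmem : z ∈ Icc (-R, (0 : ℝ)) (R, R)
        · rw [indicator_of_mem hmem]
          have e1 : n z ^ 3 ≤ (max M 0) ^ 3 :=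
            pow_le_pow_left₀ (hn0 z) (hnM z (Hset_subset_Hbar hz)) 3
          have e2 : (max (qq R z) 0) ^ 2 ≤ 1 := by
            refine pow_le_one₀ (le_max_right _ _) (max_le ?_ zero_le_one)
            unfold qq
            have : 0 ≤ (z.1 ^ 2 + z.2 ^ 2) / R ^ 2 := by positivity
            linarith
          have e3 : 0 ≤ n z ^ 3 := pow_nonneg (hn0 z) 3
          calc n z ^ 3 * (max (qq R z) 0) ^ 2 ≤ n z ^ 3 * 1 := mul_le_mul_of_nonneg_left e2 e3
            _ ≤ _ := by rw [mul_one]; exact e1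
        · rw [indicator_of_notMem hmem]
          have hq : qq R z ≤ 0 := by
            have hz' : 0 < z.2 := hz
            have hor : R < |z.1| ∨ R < z.2 := by
              by_contra hcon
              push Not at hcon
              exact hmem ⟨⟨(abs_le.1 hcon.1).1, hz'.le⟩, ⟨(abs_le.1 hcon.1).2, hcon.2⟩⟩
            have : R ^ 2 ≤ z.1 ^ 2 + z.2 ^ 2 := by
              rcases hor with h | h
              · have h1 : R ^ 2 ≤ |z.1| ^ 2 := pow_le_pow_left₀ hR.le h.le 2
                rw [sq_abs] at h1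
                nlinarith [sq_nonneg z.2]
              · have h1 : R ^ 2 ≤ z.2 ^ 2 := pow_le_pow_left₀ hR.le h.le 2
                nlinarith [sq_nonneg z.1]
            unfold qq
            have : 1 ≤ (z.1 ^ 2 + z.2 ^ 2) / R ^ 2 := (one_le_div (by positivity)).2 this
            linarith
          rw [max_eq_right hq]; simp
    refine h1.trans ?_
    have h2 : (∫ z in Hset, (Icc (-R, (0 : ℝ)) (R, R)).indicator (fun _ => (max M 0) ^ 3) z) ≤
        ∫ z, (Icc (-R, (0 : ℝ)) (R, R)).indicator (fun _ => (max M 0) ^ 3) z := by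
      refine setIntegral_le_integral ?_ (Eventually.of_forall fun z => ?_)
      · rw [integrable_indicator_iff measurableSet_Icc]
        exact integrableOn_const hfin
      · exact indicator_nonneg (fun _ _ => by positivity) z
    refine h2.trans ?_
    rw [integral_indicator measurableSet_Icc, setIntegral_const, smul_eq_mul, measureReal_def, hvol]
    linarith
  -- vanishing of the energies
  have az : ∀ R : ℝ, 0 < R → a R = 0 := by
    intro R0 hR0
    refine le_antisymm ?_ (ha0 R0)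
    have bound : ∀ R : ℝ, R0 ≤ R → a R0 ≤ (26 * 26 * 4 * 2 * (max M 0) ^ 3 / m ^ 2) * (1 / R ^ 2) := by
      intro R hRR
      have hR : 0 < R := lt_of_lt_of_le hR0 hRR
      have s1 := step (4 * R) (by positivity)
      have s2 := step (2 * R) (by positivity)
      have s3 := crude (4 * R) (by positivity)
      have e1 : 4 * R / 2 = 2 * R := by ring
      have e2 : 2 * R / 2 = R := by ring
      rw [e1] at s1
      rw [e2] at s2
      have s4 : a (2 * R) ≤ 26 / (m * (4 * R) ^ 2) * (2 * (max M 0) ^ 3 * (4 * R) ^ 2) :=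
        s1.trans (mul_le_mul_of_nonneg_left s3 (by positivity))
      have s5 : 26 / (m * (4 * R) ^ 2) * (2 * (max M 0) ^ 3 * (4 * R) ^ 2) =
          26 * 2 * (max M 0) ^ 3 / m := by field_simp
      rw [s5] at s4
      have s6 : a R ≤ 26 / (m * (2 * R) ^ 2) * (26 * 2 * (max M 0) ^ 3 / m) :=
        s2.trans (mul_le_mul_of_nonneg_left s4 (by positivity))
      have s7 : 26 / (m * (2 * R) ^ 2) * (26 * 2 * (max M 0) ^ 3 / m) ≤
          (26 * 26 * 4 * 2 * (max M 0) ^ 3 / m ^ 2) * (1 / R ^ 2) := by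
        have : 26 / (m * (2 * R) ^ 2) * (26 * 2 * (max M 0) ^ 3 / m) =
          (26 * 26 * 2 * (max M 0) ^ 3 / m ^ 2) * (1 / R ^ 2) / 4 := by
          field_simp; ring
        rw [this]
        have h9 : 0 ≤ (26 * 26 * 2 * (max M 0) ^ 3 / m ^ 2) * (1 / R ^ 2) := by positivity
        have : (26 * 26 * 4 * 2 * (max M 0) ^ 3 / m ^ 2) * (1 / R ^ 2) =
          4 * ((26 * 26 * 2 * (max M 0) ^ 3 / m ^ 2) * (1 / R ^ 2)) := by ring
        rw [this]
        linarith
      exact (amono R0 R hR0 hRR).trans (s6.trans s7)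
    have lim : Tendsto (fun R : ℝ => (26 * 26 * 4 * 2 * (max M 0) ^ 3 / m ^ 2) * (1 / R ^ 2))
        atTop (𝓝 ((26 * 26 * 4 * 2 * (max M 0) ^ 3 / m ^ 2) * 0)) := by
      refine Tendsto.const_mul _ ?_
      simp only [one_div]
      exact (tendsto_pow_atTop (by norm_num : (2 : ℕ) ≠ 0)).inv_tendsto_atTop
    rw [mul_zero] at lim
    refine ge_of_tendsto lim ?_
    filter_upwards [eventually_ge_atTop R0] with R hR using bound R hR
  -- conclusion in the open half plane
  have open_case : ∀ z ∈ Hset, 0 ≤ w z := by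
    intro z0 hz0
    set R := 2 + z0.1 ^ 2 + z0.2 ^ 2 with hRdef
    have hR : 0 < R := by positivity
    have h1 := az R hR
    have hint : IntegrableOn (fun z => n z ^ 3 * (max (qq R z) 0) ^ 2) Hset :=
      (cc_cut hn3 hR 1).integrableOn
    have h2 : (fun z => n z ^ 3 * (max (qq R z) 0) ^ 2) =ᵐ[volume.restrict Hset] fun _ => 0 := by
      have h3 := (integral_eq_zero_iff_of_nonneg_ae (μ := volume.restrict Hset)
        (f := fun z => n z ^ 3 * (max (qq R z) 0) ^ 2)
        (Eventually.of_forall fun z => by have := hn0 z; positivity) hint).1 h1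
      exact h3
    have h4 := Measure.eqOn_open_of_ae_eq h2 isOpen_Hset
      ((cc_cut hn3 hR 1).cont.mono Hset_subset_Hbar) continuousOn_const hz0
    simp only at h4
    have hq : 0 < qq R z0 := by
      unfold qq
      have : (z0.1 ^ 2 + z0.2 ^ 2) / R ^ 2 < 1 := by
        rw [div_lt_one (by positivity)]
        nlinarith [sq_nonneg z0.1, sq_nonneg z0.2]
      linarith
    rw [max_eq_left hq.le] at h4
    have h5 : n z0 ^ 3 = 0 := by
      rcases mul_eq_zero.1 h4 with h | h
      · exact h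
      · exact absurd h (by positivity)
    have h6 : n z0 = 0 := by
      exact pow_eq_zero_iff (by norm_num) |>.1 h5
    have h7 : -(w z0) ≤ n z0 := le_max_left _ _
    linarith
  intro z hz
  have hlim : Tendsto (fun k : ℕ => w (z.1, z.2 + 1 / ((k : ℝ) + 1))) atTop (𝓝 (w z)) := by
    have h1 : Tendsto (fun k : ℕ => ((z.1, z.2 + 1 / ((k : ℝ) + 1)) : ℝ × ℝ)) atTop
        (𝓝[Hbar] z) := by
      refine tendsto_nhdsWithin_iff.2 ⟨?_, Eventually.of_forall fun k => ?_⟩
      · have h2 : Tendsto (fun k : ℕ => z.2 + 1 / ((k : ℝ) + 1)) atTop (𝓝 (z.2 + 0)) :=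
          tendsto_const_nhds.add tendsto_one_div_add_atTop_nhds_zero_nat
        rw [add_zero] at h2
        exact (tendsto_const_nhds (x := z.1)).prodMk_nhds h2
      · have hz' : 0 ≤ z.2 := hz
        change 0 ≤ z.2 + 1 / ((k : ℝ) + 1)
        positivity
    exact (hw.cont z hz).tendsto.comp h1
  refine ge_of_tendsto' hlim fun k => ?_
  refine open_case _ ?_
  have hz' : 0 ≤ z.2 := hz
  change 0 < z.2 + 1 / ((k : ℝ) + 1)
  positivity

end Pool.Agent.Lib.MP_1dc5fb
end

section

/-!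
Solvability of the linear Robin problem in the half plane.
-/

set_option autoImplicit false

open MeasureTheory Set Filter Topology
open scoped BoundedContinuousFunction

namespace Pool.Agent.Lib.MP_1dc5fb

/-- **Solvability of the linear Robin problem.** -/
theorem exists_robinOp {b bx by' bxx byy : ℝ × ℝ → ℝ} (hb : Bdata b bx by' bxx byy) :
    ∃ h0 : ℝ, 0 < h0 ∧ ∀ h : ℝ, 0 < h → h ≤ h0 →
      ∃ T : (ℝ × ℝ →ᵇ ℝ) → (ℝ × ℝ →ᵇ ℝ), RobinOp (fun x => by' (x, 0)) (4 / h ^ 2) T := by
  obtain ⟨B1, B2, B0, Em, Ep, hB1, hB2, hB0, hEm, hEp⟩ := hb.exists_coef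
  obtain ⟨C, hC⟩ := hb.bdd
  obtain ⟨h0, h0pos, hsmall⟩ := exists_small B1 B2 B0
  refine ⟨h0, h0pos, fun h hpos hle => ?_⟩
  set A := opA h B1 B2 B0 with hAdef
  have hA : ‖A‖ ≤ 1 / 2 := hsmall h hpos hle
  have hne : h ≠ 0 := hpos.ne'
  -- the density
  let Fg : (ℝ × ℝ →ᵇ ℝ) → (ℝ × ℝ →ᵇ ℝ) := fun g => solF A (Em * absL g)
  have hF : ∀ g, Fg g = Em * absL g + A (Fg g) := fun g => solF_eq hA _
  have hFz : ∀ g z, Fg g z = Real.exp (-b (abs2 z)) * g (abs2 z) +
      (2 * bx (abs2 z) * V1 h (Fg g) (abs2 z) + 2 * by' (abs2 z) * V2 h (Fg g) (abs2 z) +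
      (bxx (abs2 z) + byy (abs2 z) + bx (abs2 z) ^ 2 + by' (abs2 z) ^ 2) * V h (Fg g) (abs2 z)) := by
    intro g z
    conv_lhs => rw [hF g]
    rw [BoundedContinuousFunction.add_apply, BoundedContinuousFunction.mul_apply, hAdef, opA_apply,
      hEm, absL_apply, hB1, hB2, hB0]
  have hFe : ∀ g, Even2 (Fg g) := by
    intro g x y
    rw [hFz, hFz, abs2_neg]
  have hFn : ∀ g, ‖Fg g‖ ≤ 2 * (‖Em‖ * ‖g‖) := by
    intro g
    refine (norm_solF_le hA _).trans ?_
    refine mul_le_mul_of_nonneg_left ?_ (by norm_num)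
    refine (norm_mul_le _ _).trans (mul_le_mul_of_nonneg_left ?_ (norm_nonneg _))
    have := absL.le_opNorm g
    refine this.trans ?_
    calc ‖absL‖ * ‖g‖ ≤ 1 * ‖g‖ := mul_le_mul_of_nonneg_right norm_absL_le (norm_nonneg _)
      _ = ‖g‖ := one_mul _
  let T : (ℝ × ℝ →ᵇ ℝ) → (ℝ × ℝ →ᵇ ℝ) := fun g => Ep * absL (V h (Fg g))
  have hT : ∀ g z, T g z = Real.exp (b (abs2 z)) * V h (Fg g) (abs2 z) := by
    intro g z
    simp only [T, BoundedContinuousFunction.mul_apply, hEp, absL_apply]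
  have hTm : ∀ g z, z ∈ Hbar → T g z = Real.exp (b z) * V h (Fg g) z := by
    intro g z hz
    rw [hT, abs2_of_mem hz]
  -- the derivatives
  have hexp : C1bar (fun z => Real.exp (b z)) (fun z => Real.exp (b z) * bx z)
      (fun z => Real.exp (b z) * by' z) :=
    hb.toC1bar.comp (g := Real.exp) (g' := Real.exp) Real.hasDerivAt_exp Real.continuous_exp
  have hVc : ∀ F : ℝ × ℝ →ᵇ ℝ, C1bar (V h F) (V1 h F) (V2 h F) := fun F =>
    ⟨(V h F).continuous.continuousOn, (V1 h F).continuous.continuousOn,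
      (V2 h F).continuous.continuousOn, fun z _ => hasFDerivAt_V F z⟩
  have hU : ∀ g, C1bar (fun z => Real.exp (b z) * V h (Fg g) z)
      (fun z => Real.exp (b z) * bx z * V h (Fg g) z + Real.exp (b z) * V1 h (Fg g) z)
      (fun z => Real.exp (b z) * by' z * V h (Fg g) z + Real.exp (b z) * V2 h (Fg g) z) :=
    fun g => hexp.mul (hVc _)
  have hTc : ∀ g, C1bar (T g)
      (fun z => Real.exp (b z) * bx z * V h (Fg g) z + Real.exp (b z) * V1 h (Fg g) z)
      (fun z => Real.exp (b z) * by' z * V h (Fg g) z + Real.exp (b z) * V2 h (Fg g) z) := by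
    intro g
    refine ⟨(T g).continuous.continuousOn, (hU g).contx, (hU g).conty, fun z hz => ?_⟩
    refine ((hU g).deriv z hz).congr_of_eventuallyEq ?_
    filter_upwards [isOpen_Hset.mem_nhds hz] with w hw
    exact hTm g w (Hset_subset_Hbar hw)
  refine ⟨T, ⟨fun g => ⟨_, _, hTc g, ?_⟩, ?_, ?_, ?_⟩⟩
  · -- the weak equation
    intro φ φx φy hφ
    set F := Fg g with hFdef
    have hψ := hφ.mul_left hexp
    have w1 := weak_half hne (hFe g) hψ
    obtain ⟨k0, kx, ky⟩ := hφ.cc
    obtain ⟨l0, lx, ly⟩ := hψ.cc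
    have hbc : C1bar b bx by' := hb.toC1bar
    have hv := hVc F
    have cE := hexp.cont
    -- divergence theorem
    have dd := div_lemma
      (Z1 := fun z => Real.exp (b z) * V h F z * bx z * φ z)
      (Z2 := fun z => Real.exp (b z) * V h F z * by' z * φ z)
      (D1 := fun z => (((Real.exp (b z) * bx z * V h F z + Real.exp (b z) * V1 h F z) * bx z +
        Real.exp (b z) * V h F z * bxx z) * φ z + Real.exp (b z) * V h F z * bx z * φx z))
      (D2 := fun z => (((Real.exp (b z) * by' z * V h F z + Real.exp (b z) * V2 h F z) * by' z +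
        Real.exp (b z) * V h F z * byy z) * φ z + Real.exp (b z) * V h F z * by' z * φy z))
      (k0.mul_left ((cE.mul hv.cont).mul hb.contx)) (k0.mul_left ((cE.mul hv.cont).mul hb.conty))
      ((k0.mul_left (((hU g).contx.mul hb.contx).add ((cE.mul hv.cont).mul hb.contxx))).add
        (kx.mul_left ((cE.mul hv.cont).mul hb.contx)))
      ((k0.mul_left (((hU g).conty.mul hb.conty).add ((cE.mul hv.cont).mul hb.contyy))).add
        (ky.mul_left ((cE.mul hv.cont).mul hb.conty)))
      (fun z hz => (((hU g).hasDerivAt_x hz).mul (hb.dxx z hz)).mul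
        (hφ.toC1bar.hasDerivAt_x hz))
      (fun z hz => (((hU g).hasDerivAt_y hz).mul (hb.dyy z hz)).mul
        (hφ.toC1bar.hasDerivAt_y hz))
    -- pointwise identity
    have pw : ∀ z ∈ Hset,
        (V1 h F z * (Real.exp (b z) * bx z * φ z + Real.exp (b z) * φx z) +
          V2 h F z * (Real.exp (b z) * by' z * φ z + Real.exp (b z) * φy z) +
          4 / h ^ 2 * V h F z * (Real.exp (b z) * φ z)) +
        ((((Real.exp (b z) * bx z * V h F z + Real.exp (b z) * V1 h F z) * bx z +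
        Real.exp (b z) * V h F z * bxx z) * φ z + Real.exp (b z) * V h F z * bx z * φx z) +
        (((Real.exp (b z) * by' z * V h F z + Real.exp (b z) * V2 h F z) * by' z +
        Real.exp (b z) * V h F z * byy z) * φ z + Real.exp (b z) * V h F z * by' z * φy z)) =
        (((Real.exp (b z) * bx z * V h F z + Real.exp (b z) * V1 h F z) * φx z +
          (Real.exp (b z) * by' z * V h F z + Real.exp (b z) * V2 h F z) * φy z) +
          4 / h ^ 2 * (T g z * φ z) - g z * φ z) + F z * (Real.exp (b z) * φ z) := by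
      intro z hz
      have hzb := Hset_subset_Hbar hz
      have e1 := hFz g z
      rw [abs2_of_mem hzb] at e1
      rw [hTm g z hzb, ← hFdef, hFdef, e1, ← hFdef]
      have e2 : Real.exp (-b z) * Real.exp (b z) = 1 := by
        rw [← Real.exp_add]; simp
      generalize Real.exp (-b z) = em at e2 ⊢
      generalize Real.exp (b z) = ep at e2 ⊢
      generalize V1 h F z = w1'
      generalize V2 h F z = w2'
      generalize V h F z = w0'
      generalize g z = gz
      generalize φ z = f0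
      generalize φx z = f1
      generalize φy z = f2
      generalize bx z = p1
      generalize by' z = p2
      generalize bxx z = p3
      generalize byy z = p4
      linear_combination (-(gz * f0)) * e2
    have cU := (hU g).contx
    have cU2 := (hU g).conty
    have cT : ContinuousOn (T g) Hbar := (T g).continuous.continuousOn
    have cg : ContinuousOn g Hbar := g.continuous.continuousOn
    have cF : ContinuousOn F Hbar := F.continuous.continuousOn
    have I1 : IntegrableOn (fun z => (Real.exp (b z) * bx z * V h F z + Real.exp (b z) * V1 h F z) *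
        φx z + (Real.exp (b z) * by' z * V h F z + Real.exp (b z) * V2 h F z) * φy z) Hset :=
      ((kx.mul_left cU).add (ky.mul_left cU2)).integrableOn
    have I2 : IntegrableOn (fun z => T g z * φ z) Hset := (k0.mul_left cT).integrableOn
    have I3 : IntegrableOn (fun z => g z * φ z) Hset := (k0.mul_left cg).integrableOn
    have I4 : IntegrableOn (fun z => F z * (Real.exp (b z) * φ z)) Hset :=
      (l0.mul_left cF).integrableOn
    have I5 : IntegrableOn (fun z => V1 h F z * (Real.exp (b z) * bx z * φ z +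
        Real.exp (b z) * φx z) + V2 h F z * (Real.exp (b z) * by' z * φ z + Real.exp (b z) * φy z) +
          4 / h ^ 2 * V h F z * (Real.exp (b z) * φ z)) Hset :=
      (((lx.mul_left hv.contx).add (ly.mul_left hv.conty)).add
        (l0.mul_left (continuousOn_const.mul hv.cont))).integrableOn
    have I6 : IntegrableOn (fun z => ((((Real.exp (b z) * bx z * V h F z +
        Real.exp (b z) * V1 h F z) * bx z +
        Real.exp (b z) * V h F z * bxx z) * φ z + Real.exp (b z) * V h F z * bx z * φx z) +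
        (((Real.exp (b z) * by' z * V h F z + Real.exp (b z) * V2 h F z) * by' z +
        Real.exp (b z) * V h F z * byy z) * φ z + Real.exp (b z) * V h F z * by' z * φy z))) Hset :=
      (((k0.mul_left (((hU g).contx.mul hb.contx).add ((cE.mul hv.cont).mul hb.contxx))).add
        (kx.mul_left ((cE.mul hv.cont).mul hb.contx))).add
      ((k0.mul_left (((hU g).conty.mul hb.conty).add ((cE.mul hv.cont).mul hb.contyy))).add
        (ky.mul_left ((cE.mul hv.cont).mul hb.conty)))).integrableOn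
    have tot := setIntegral_congr_fun (μ := volume) measurableSet_Hset pw
    rw [integral_add I5 I6] at tot
    have tot2 : (∫ z in Hset, ((((Real.exp (b z) * bx z * V h F z + Real.exp (b z) * V1 h F z) * φx z +
          (Real.exp (b z) * by' z * V h F z + Real.exp (b z) * V2 h F z) * φy z) +
          4 / h ^ 2 * (T g z * φ z) - g z * φ z) + F z * (Real.exp (b z) * φ z))) =
        (∫ z in Hset, ((Real.exp (b z) * bx z * V h F z + Real.exp (b z) * V1 h F z) * φx z +
          (Real.exp (b z) * by' z * V h F z + Real.exp (b z) * V2 h F z) * φy z)) +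
          4 / h ^ 2 * (∫ z in Hset, T g z * φ z) - (∫ z in Hset, g z * φ z) +
          ∫ z in Hset, F z * (Real.exp (b z) * φ z) := by
      rw [integral_add (isub (iadd I1 (I2.const_mul _)) I3) I4,
        integral_sub (iadd I1 (I2.const_mul _)) I3, integral_add I1 (I2.const_mul _),
        integral_const_mul]
    have bdry : (∫ x, by' (x, 0) * T g (x, 0) * φ (x, 0)) =
        ∫ x, Real.exp (b (x, 0)) * V h F (x, 0) * by' (x, 0) * φ (x, 0) := by
      refine integral_congr_ae (Eventually.of_forall fun x => ?_)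
      simp only
      rw [hTm g (x, 0) (show (0 : ℝ) ≤ 0 from le_rfl)]
      ring
    rw [bdry]
    linarith
  · -- continuity
    intro g G C' hC' hlim z
    simp only [hT]
    refine Tendsto.const_mul _ ?_
    refine sigma_conv h _ (int_K0 h) (fun n => Fg (g n)) (Fg G) (2 * (‖Em‖ * C')) ?_ ?_ _
    · intro n
      exact (hFn (g n)).trans (by gcongr; exact hC' n)
    · intro w
      refine sigma_solF hA (sigma_opA h B1 B2 B0) (fun n => Em * absL (g n)) (Em * absL G)
        (‖Em‖ * C') ?_ ?_ w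
      · intro n
        refine (norm_mul_le _ _).trans (mul_le_mul_of_nonneg_left ?_ (norm_nonneg _))
        refine (absL.le_opNorm (g n)).trans ?_
        calc ‖absL‖ * ‖g n‖ ≤ 1 * ‖g n‖ := mul_le_mul_of_nonneg_right norm_absL_le (norm_nonneg _)
          _ = ‖g n‖ := one_mul _
          _ ≤ C' := hC' n
      · intro v
        simp only [BoundedContinuousFunction.mul_apply, absL_apply]
        exact (hlim _).const_mul _
  · -- gradient bound
    have hC0 : 0 ≤ C := (abs_nonneg _).trans (hC (0, 0) (show (0 : ℝ) ≤ 0 from le_rfl)).1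
    refine ⟨(Real.exp C * C * ‖V h‖ + Real.exp C * (‖V1 h‖ + ‖V2 h‖)) * (2 * ‖Em‖), by positivity,
      fun g ux uy hu z hz => ?_⟩
    obtain ⟨e1, e2⟩ := hu.unique (hTc g) (fun _ _ => rfl) hz
    obtain ⟨a0, a1, a2, a3, a4⟩ := hC z (Hset_subset_Hbar hz)
    have ex : Real.exp (b z) ≤ Real.exp C := Real.exp_le_exp.2 ((le_abs_self _).trans a0)
    have v0 : |V h (Fg g) z| ≤ ‖V h‖ * (2 * (‖Em‖ * ‖g‖)) :=
      (abs_bcf_le _ _).trans (((V h).le_opNorm _).trans
        (mul_le_mul_of_nonneg_left (hFn g) (norm_nonneg _)))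
    have v1 : |V1 h (Fg g) z| ≤ ‖V1 h‖ * (2 * (‖Em‖ * ‖g‖)) :=
      (abs_bcf_le _ _).trans (((V1 h).le_opNorm _).trans
        (mul_le_mul_of_nonneg_left (hFn g) (norm_nonneg _)))
    have v2 : |V2 h (Fg g) z| ≤ ‖V2 h‖ * (2 * (‖Em‖ * ‖g‖)) :=
      (abs_bcf_le _ _).trans (((V2 h).le_opNorm _).trans
        (mul_le_mul_of_nonneg_left (hFn g) (norm_nonneg _)))
    have gen : ∀ (β v w nw : ℝ), |β| ≤ C → |v| ≤ ‖V h‖ * (2 * (‖Em‖ * ‖g‖)) → 0 ≤ nw →
        nw ≤ ‖V1 h‖ + ‖V2 h‖ →
        |w| ≤ nw * (2 * (‖Em‖ * ‖g‖)) →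
        |Real.exp (b z) * β * v + Real.exp (b z) * w| ≤
          (Real.exp C * C * ‖V h‖ + Real.exp C * (‖V1 h‖ + ‖V2 h‖)) * (2 * ‖Em‖) * ‖g‖ := by
      intro β v w nw hβ hv hnw hnw2 hw
      have t1 : |Real.exp (b z) * β * v| ≤ Real.exp C * C * (‖V h‖ * (2 * (‖Em‖ * ‖g‖))) := by
        rw [abs_mul, abs_mul, abs_of_pos (Real.exp_pos _)]
        gcongr
      have t2 : |Real.exp (b z) * w| ≤ Real.exp C * ((‖V1 h‖ + ‖V2 h‖) * (2 * (‖Em‖ * ‖g‖))) := by
        rw [abs_mul, abs_of_pos (Real.exp_pos _)]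
        refine mul_le_mul ex (hw.trans ?_) (abs_nonneg _) (Real.exp_pos _).le
        gcongr
      calc _ ≤ |Real.exp (b z) * β * v| + |Real.exp (b z) * w| := abs_add_le _ _
        _ ≤ _ := add_le_add t1 t2
        _ = _ := by ring
    rw [e1, e2]
    exact ⟨gen _ _ _ ‖V1 h‖ a1 v0 (norm_nonneg (V1 h))
        (le_add_of_nonneg_right (norm_nonneg (V2 h))) v1,
      gen _ _ _ ‖V2 h‖ a2 v0 (norm_nonneg (V2 h)) (le_add_of_nonneg_left (norm_nonneg (V1 h))) v2⟩
  · intro g z
    rw [hT, hT, abs2_of_mem (abs2_mem z)]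

end Pool.Agent.Lib.MP_1dc5fb
end
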